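import Mathlib

/-! MP_4d240a_al: a ring with identity, both left and right McCoy, that is not right
Dischinger. -/

namespace Pool.Agent.Results.MP_4d240a_al.McCoyDischinger

open Polynomial

/-- Right McCoy ring. -/
def RightMcCoy (S : Type*) [Ring S] : Prop :=
  ∀ f g : S[X], f ≠ 0 → g ≠ 0 → f * g = 0 → ∃ s : S, s ≠ 0 ∧ f * C s = 0

/-- Left McCoy ring. -/
def LeftMcCoy (S : Type*) [Ring S] : Prop :=
  ∀ f g : S[X], f ≠ 0 → g ≠ 0 → f * g = 0 → ∃ s : S, s ≠ 0 ∧ C s * g = 0

/-! ### The monoid `⟨a, y | a a y = a⟩`: normal forms `p a^m`, `p` a word in `y` (false)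
and `Z = a y` (true). -/

@[ext] structure M where
  p : List Bool
  m : ℕ
deriving DecidableEq

/-- the normal form of `a^m q` -/
def red : ℕ → List Bool → List Bool × ℕ
  | 0, q => (q, 0)
  | m + 1, [] => ([], m + 1)
  | m + 1, true :: q => red (m + 1) q
  | 1, false :: q => (true :: q, 0)
  | m + 2, false :: q => red (m + 1) q

theorem red_zero (q : List Bool) : red 0 q = (q, 0) := by
  cases q <;> rfl

theorem red_nil (m : ℕ) : red m [] = ([], m) := by
  cases m <;> rfl

theorem red_true (m : ℕ) (q : List Bool) : red (m + 1) (true :: q) = red (m + 1) q := by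
  cases m <;> simp [red]

theorem red_false_one (q : List Bool) : red 1 (false :: q) = (true :: q, 0) := by simp [red]

theorem red_false (m : ℕ) (q : List Bool) : red (m + 2) (false :: q) = red (m + 1) q := by
  simp [red]

theorem red_append (m : ℕ) (q q' : List Bool) :
    red m (q ++ q') = ((red m q).1 ++ (red (red m q).2 q').1, (red (red m q).2 q').2) := by
  induction q generalizing m with
  | nil => rw [List.nil_append, red_nil]; simp
  | cons b q ih =>
    cases m with
    | zero => simp [red_zero]
    | succ m =>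
      cases b with
      | true => rw [List.cons_append, red_true, red_true, ih]
      | false =>
        cases m with
        | zero =>
          rw [List.cons_append, zero_add, red_false_one, red_false_one]
          simp [red_zero]
        | succ m => rw [List.cons_append, red_false, red_false, ih]

theorem red_add (m n : ℕ) (q : List Bool) :
    red (m + n) q = ((red m (red n q).1).1, (red m (red n q).1).2 + (red n q).2) := by
  induction q generalizing n with
  | nil => simp [red_nil]
  | cons b q ih =>
    cases n with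
    | zero => simp [red_zero]
    | succ n =>
      cases b with
      | true => rw [red_true, ← add_assoc, red_true, add_assoc, ih]
      | false =>
        cases n with
        | zero =>
          rw [zero_add, red_false_one]
          cases m with
          | zero => rw [zero_add, red_false_one, red_zero]; rfl
          | succ m => rw [red_false, red_true]; simp
        | succ n =>
          rw [red_false]
          have : m + (n + 1 + 1) = (m + n) + 2 := by ring
          rw [this, red_false]
          have : m + n + 1 = m + (n + 1) := by ring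
          rw [this, ih]

def mulM (u v : M) : M := ⟨u.p ++ (red u.m v.p).1, (red u.m v.p).2 + v.m⟩

instance : Monoid M where
  mul := mulM
  one := ⟨[], 0⟩
  one_mul u := by
    show mulM ⟨[], 0⟩ u = u
    simp [mulM, red_zero]
  mul_one u := by
    show mulM u ⟨[], 0⟩ = u
    simp [mulM, red_nil]
  mul_assoc u v w := by
    show mulM (mulM u v) w = mulM u (mulM v w)
    simp only [mulM, M.mk.injEq]
    rw [red_append, red_add]
    constructor
    · simp [List.append_assoc]
    · simp [add_assoc]

theorem mul_p (u v : M) : (u * v).p = u.p ++ (red u.m v.p).1 := rfl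
theorem mul_m (u v : M) : (u * v).m = (red u.m v.p).2 + v.m := rfl
theorem one_p : (1 : M).p = [] := rfl
theorem one_m : (1 : M).m = 0 := rfl

theorem red_ne (m : ℕ) (q : List Bool) (hm : m ≠ 0) : red m q ≠ ([], 0) := by
  induction q generalizing m with
  | nil => rw [red_nil]; simpa using hm
  | cons b q ih =>
    obtain ⟨m, rfl⟩ := Nat.exists_eq_succ_of_ne_zero hm
    cases b with
    | true => rw [Nat.succ_eq_add_one, red_true]; exact ih _ hm
    | false =>
      cases m with
      | zero => rw [Nat.succ_eq_add_one, zero_add, red_false_one]; simp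
      | succ m => rw [Nat.succ_eq_add_one, red_false]; exact ih _ (by omega)

theorem mul_eq_one (u v : M) (h : u * v = 1) : u = 1 ∧ v = 1 := by
  have h1 := congrArg M.p h
  have h2 := congrArg M.m h
  rw [mul_p, one_p, List.append_eq_nil_iff] at h1
  rw [mul_m, one_m] at h2
  have h3 : (red u.m v.p).2 = 0 := by omega
  have h4 : v.m = 0 := by omega
  have h5 : u.m = 0 := by
    by_contra hne
    exact red_ne _ _ hne (Prod.ext h1.2 h3)
  have h6 : v.p = [] := by
    have := h1.2
    rw [h5, red_zero] at this
    exact this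
  exact ⟨M.ext h1.1 h5, M.ext h6 h4⟩

theorem red_deg (m : ℕ) (q : List Bool) :
    ((red m q).2 : ℤ) - ((red m q).1.count false : ℤ) = m - (q.count false : ℤ) := by
  induction q generalizing m with
  | nil => rw [red_nil]
  | cons b q ih =>
    cases m with
    | zero => rw [red_zero]
    | succ m =>
      cases b with
      | true => rw [red_true, ih]; simp
      | false =>
        cases m with
        | zero => rw [zero_add, red_false_one]; simp
        | succ m => rw [red_false, ih]; simp

theorem red_big (m : ℕ) (p : List Bool) (hm : m ≠ 0) (h : m ≤ p.count false) :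
    (red m p).2 = 0 ∧ (red m p).1 ≠ [] := by
  induction p generalizing m with
  | nil =>
    simp at h
    exact absurd h hm
  | cons b p ih =>
    obtain ⟨m, rfl⟩ := Nat.exists_eq_succ_of_ne_zero hm
    cases b with
    | true =>
      rw [Nat.succ_eq_add_one, red_true]
      exact ih _ hm (by simpa using h)
    | false =>
      cases m with
      | zero => rw [Nat.succ_eq_add_one, zero_add, red_false_one]; simp
      | succ m =>
        rw [Nat.succ_eq_add_one, red_false]
        refine ih _ (by omega) ?_
        rw [List.count_cons_self] at h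
        omega

theorem mul_eq_self (u w : M) (h : u * w = w) : u = 1 := by
  have h1 := congrArg M.p h
  have h2 := congrArg M.m h
  rw [mul_p] at h1
  rw [mul_m] at h2
  have h3 : (red u.m w.p).2 = 0 := by omega
  have h4 := red_deg u.m w.p
  obtain ⟨r, hr⟩ : ∃ r, r = (red u.m w.p).1 := ⟨_, rfl⟩
  rw [← hr] at h1 h4
  rw [h3] at h4
  have h5 : w.p.count false = u.p.count false + r.count false := by
    rw [← h1, List.count_append]
  have h6 : u.m = u.p.count false := by omega
  by_cases hm : u.m = 0
  · rw [hm, red_zero] at hr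
    rw [hr] at h1
    have h7 : u.p = [] := by
      have := congrArg List.length h1
      rw [List.length_append] at this
      simp only at this
      exact List.eq_nil_of_length_eq_zero (by omega)
    exact M.ext h7 hm
  · exfalso
    obtain ⟨h7, h8⟩ := red_big u.m u.p hm h6.le
    rw [← h1, red_append, h7, red_zero] at hr
    simp only at hr
    apply h8
    have := congrArg List.length hr
    rw [List.length_append] at this
    exact List.eq_nil_of_length_eq_zero (by omega)

/-! ### The monoid algebra -/

abbrev T : Type := MonoidAlgebra ℚ M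

/-- existence of a minimal element of a finite nonempty set for left divisibility -/
theorem exists_min (s : Finset M) (hs : s.Nonempty) :
    ∃ w ∈ s, ∀ v ∈ s, ∀ u : M, u * v = w → u = 1 := by
  classical
  induction hs using Finset.Nonempty.cons_induction with
  | singleton a =>
    refine ⟨a, Finset.mem_singleton_self a, fun v hv u hu => ?_⟩
    rw [Finset.mem_singleton] at hv
    rw [hv] at hu
    exact mul_eq_self u a hu
  | cons a s has hs ih =>
    obtain ⟨w, hw, hmin⟩ := ih
    by_cases h : ∃ u, u * a = w
    · obtain ⟨u, hu⟩ := h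
      refine ⟨a, Finset.mem_cons_self _ _, fun v hv u' hu' => ?_⟩
      rcases Finset.mem_cons.1 hv with rfl | hv
      · exact mul_eq_self _ _ hu'
      · have h1 : (u * u') * v = w := by rw [mul_assoc, hu', hu]
        exact (mul_eq_one _ _ (hmin v hv _ h1)).2
    · refine ⟨w, Finset.mem_cons_of_mem hw, fun v hv u hu => ?_⟩
      rcases Finset.mem_cons.1 hv with rfl | hv
      · exact absurd ⟨u, hu⟩ h
      · exact hmin v hv u hu

theorem alpha (f g : T) (hf : f.coeff 1 ≠ 0) (hfg : f * g = 0) : g = 0 := by
  classical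
  by_contra hg
  have hg' : g.coeff ≠ 0 := fun h => hg (MonoidAlgebra.coeff_eq_zero.1 h)
  have hs : g.coeff.support.Nonempty := Finsupp.support_nonempty_iff.2 hg'
  obtain ⟨w, hw, hmin⟩ := exists_min g.coeff.support hs
  have h1 : (f * g).coeff w = f.coeff 1 * g.coeff w := by
    rw [MonoidAlgebra.coeff_mul, Finsupp.sum, Finset.sum_eq_single 1]
    · rw [Finsupp.sum, Finset.sum_eq_single w]
      · simp
      · intro v _ hv
        rw [if_neg (by rw [one_mul]; exact hv)]
      · intro h
        exact absurd hw h
    · intro u _ hu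
      rw [Finsupp.sum]
      refine Finset.sum_eq_zero fun v hv => ?_
      rw [if_neg (fun h => hu (hmin v hv u h))]
    · intro h
      rw [Finsupp.notMem_support_iff] at h
      exact absurd h hf
  rw [hfg] at h1
  exact mul_ne_zero hf (Finsupp.mem_support_iff.1 hw) h1.symm

/-- degree -/
def deg : M →* Multiplicative ℤ where
  toFun u := Multiplicative.ofAdd ((u.m : ℤ) - (u.p.count false : ℤ))
  map_one' := rfl
  map_mul' u v := by
    rw [← ofAdd_add, mul_p, mul_m]
    congr 1
    have := red_deg u.m v.p
    rw [List.count_append]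
    push_cast
    omega

/-- group algebra of the integers -/
abbrev L : Type := MonoidAlgebra ℚ (Multiplicative ℤ)

noncomputable def pi : T →+* L := MonoidAlgebra.mapDomainRingHom ℚ deg

theorem pi_single (w : M) (r : ℚ) : pi (MonoidAlgebra.single w r) =
    MonoidAlgebra.single (deg w) r := MonoidAlgebra.mapDomain_single

def ma : M := ⟨[], 1⟩
def my : M := ⟨[false], 0⟩
def mz : M := ⟨[true], 0⟩

theorem mz_mul (w : M) : mz * w = ⟨true :: w.p, w.m⟩ := by
  apply M.ext
  · rw [mul_p]; simp [mz, red_zero]
  · rw [mul_m]; simp [mz, red_zero]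

theorem mz_inj (v w : M) : mz * v = mz * w ↔ v = w := by
  rw [mz_mul, mz_mul]
  constructor
  · intro h
    simp only [M.mk.injEq, List.cons.injEq, true_and] at h
    exact M.ext h.1 h.2
  · rintro rfl; rfl

theorem ma_mul (w : M) : ma * w = ⟨(red 1 w.p).1, (red 1 w.p).2 + w.m⟩ := by
  apply M.ext
  · rw [mul_p]; simp [ma]
  · rw [mul_m]; simp [ma]

/-- left inverse of left multiplication by a, on stripped words -/
def tau (w : M) : M :=
  match w.p with
  | [] => ⟨[], w.m - 1⟩
  | _ :: p => ⟨false :: p, w.m⟩

noncomputable def A : T := MonoidAlgebra.single ma 1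
noncomputable def Z : T := MonoidAlgebra.single mz 1

theorem strip_word (p : List Bool) (m : ℕ) (r : ℚ) : ∃ h : T,
    MonoidAlgebra.single (⟨p, m⟩ : M) r - MonoidAlgebra.single (tau (ma * ⟨p, m⟩)) r =
      (1 - Z) * h := by
  induction p with
  | nil =>
    refine ⟨0, ?_⟩
    rw [ma_mul, mul_zero]
    simp [red_nil, tau]
  | cons b p ih =>
    cases b with
    | false =>
      refine ⟨0, ?_⟩
      rw [ma_mul, mul_zero]
      simp [red_false_one, tau]
    | true =>
      obtain ⟨h, hh⟩ := ih
      have e1 : ma * (⟨true :: p, m⟩ : M) = ma * ⟨p, m⟩ := by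
        rw [ma_mul, ma_mul]
        show (⟨(red (0 + 1) (true :: p)).1, (red (0 + 1) (true :: p)).2 + m⟩ : M) =
          ⟨(red (0 + 1) p).1, (red (0 + 1) p).2 + m⟩
        rw [red_true]
      refine ⟨h - MonoidAlgebra.single (⟨p, m⟩ : M) r, ?_⟩
      rw [mul_sub, ← hh, e1, sub_mul, one_mul]
      have e2 : Z * MonoidAlgebra.single (⟨p, m⟩ : M) r =
          MonoidAlgebra.single (⟨true :: p, m⟩ : M) r := by
        unfold Z
        rw [MonoidAlgebra.single_mul_single, mz_mul, one_mul]
      rw [e2]
      abel

theorem strip (f : T) : ∃ h : T, f - MonoidAlgebra.mapDomain tau (A * f) = (1 - Z) * h := by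
  induction f using MonoidAlgebra.induction_linear with
  | zero => exact ⟨0, by simp⟩
  | add x y hx hy =>
    obtain ⟨h, hh⟩ := hx
    obtain ⟨k, hk⟩ := hy
    refine ⟨h + k, ?_⟩
    rw [mul_add (1 - Z), ← hh, ← hk, mul_add, MonoidAlgebra.mapDomain_add]
    abel
  | single w r =>
    obtain ⟨h, hh⟩ := strip_word w.p w.m r
    refine ⟨h, ?_⟩
    rw [← hh]
    unfold A
    rw [MonoidAlgebra.single_mul_single, MonoidAlgebra.mapDomain_single, one_mul]

theorem ker_A (f : T) (hf : A * f = 0) : ∃ h : T, f = (1 - Z) * h := by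
  obtain ⟨h, hh⟩ := strip f
  rw [hf, MonoidAlgebra.mapDomain_zero, sub_zero] at hh
  exact ⟨h, hh⟩

/-- all words in the support have at most `n` letters in front of the power of `a` -/
def Bd (n : ℕ) (f : T) : Prop := ∀ w : M, f.coeff w ≠ 0 → w.p.length ≤ n

theorem Z_coeff (h : T) (w : M) : (Z * h).coeff (mz * w) = h.coeff w := by
  unfold Z
  rw [MonoidAlgebra.coeff_single_mul_eq_mul_coeff w (fun v _ => mz_inj v w), one_mul]

theorem Bd_div (n : ℕ) (h : T) (hn : Bd (n + 1) ((1 - Z) * h)) : Bd n h := by
  classical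
  by_contra hcon
  unfold Bd at hcon
  push Not at hcon
  obtain ⟨w0, hw0, hl0⟩ := hcon
  obtain ⟨w, hw, hmax⟩ := Finset.exists_max_image h.coeff.support (fun w => w.p.length)
    ⟨w0, Finsupp.mem_support_iff.2 hw0⟩
  have hw0' := hmax w0 (Finsupp.mem_support_iff.2 hw0)
  have h1 : ((1 - Z) * h).coeff (mz * w) = - h.coeff w := by
    rw [sub_mul, one_mul]
    have : (h - Z * h).coeff (mz * w) = h.coeff (mz * w) - (Z * h).coeff (mz * w) := rfl
    rw [this, Z_coeff]
    have h2 : h.coeff (mz * w) = 0 := by
      by_contra h3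
      have := hmax _ (Finsupp.mem_support_iff.2 h3)
      rw [mz_mul] at this
      simp at this
    rw [h2, zero_sub]
  have h4 := hn (mz * w) (by
    rw [h1]
    exact neg_ne_zero.2 (Finsupp.mem_support_iff.1 hw))
  rw [mz_mul] at h4
  simp only [List.length_cons] at h4
  have h5 : w0.p.length ≤ w.p.length := hw0'
  omega

theorem red_len (m : ℕ) (q : List Bool) : (red m q).1.length ≤ q.length := by
  induction q generalizing m with
  | nil => rw [red_nil]
  | cons b q ih =>
    cases m with
    | zero => rw [red_zero]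
    | succ m =>
      cases b with
      | true => rw [red_true]; exact (ih _).trans (by simp)
      | false =>
        cases m with
        | zero => rw [zero_add, red_false_one]; simp
        | succ m => rw [red_false]; exact (ih _).trans (by simp)

theorem red_len2 (q : List Bool) : (red 2 q).1.length ≤ q.length - 1 := by
  cases q with
  | nil => rw [red_nil]; simp
  | cons b q =>
    cases b with
    | true =>
      show (red (1 + 1) (true :: q)).1.length ≤ _
      rw [red_true]
      simpa using red_len _ _
    | false =>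
      show (red (0 + 2) (false :: q)).1.length ≤ _
      rw [red_false]
      simpa using red_len _ _

theorem exists_of_coeff_ne (u : M) (f : T) (w : M)
    (h : (MonoidAlgebra.single u 1 * f).coeff w ≠ 0) : ∃ v, f.coeff v ≠ 0 ∧ u * v = w := by
  classical
  by_contra hcon
  push Not at hcon
  apply h
  rw [MonoidAlgebra.coeff_mul, MonoidAlgebra.coeff_single, Finsupp.sum_single_index (by simp)]
  rw [Finsupp.sum]
  refine Finset.sum_eq_zero fun v hv => ?_
  rw [if_neg (hcon v (Finsupp.mem_support_iff.1 hv))]

theorem Bd_A (n : ℕ) (f : T) (hf : Bd n f) : Bd n (A * f) := by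
  intro w hw
  obtain ⟨v, hv, hvw⟩ := exists_of_coeff_ne _ _ _ hw
  rw [← hvw, ma_mul]
  exact (red_len _ _).trans (hf v hv)

theorem Bd_AA (n : ℕ) (f : T) (hf : Bd (n + 1) f) : Bd n (A * (A * f)) := by
  intro w hw
  rw [← mul_assoc] at hw
  unfold A at hw
  rw [MonoidAlgebra.single_mul_single, one_mul] at hw
  obtain ⟨v, hv, hvw⟩ := exists_of_coeff_ne _ _ _ hw
  have e : (ma * ma : M) = ⟨[], 2⟩ := by rfl
  rw [← hvw, e, mul_p]
  simp only [List.nil_append]
  have h1 := red_len2 v.p
  have h2 := hf v hv
  omega

theorem one_sub_Z : (1 - Z : T).coeff 1 ≠ 0 := by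
  have : (1 - Z : T).coeff 1 = (1 : T).coeff 1 - Z.coeff 1 := rfl
  rw [this, MonoidAlgebra.coeff_one_one]
  unfold Z
  rw [MonoidAlgebra.coeff_single, Finsupp.single_apply, if_neg]
  · simp
  · intro h
    have := congrArg M.p h
    simp [mz, one_p] at this

theorem beta_step (n : ℕ) (F g : T) (hF : F ≠ 0) (hAF : A * F = 0) (hB : Bd (n + 1) F)
    (hFg : F * g = 0) : ∃ h : T, h ≠ 0 ∧ Bd n h ∧ h * g = 0 := by
  obtain ⟨h, rfl⟩ := ker_A F hAF
  refine ⟨h, fun h0 => hF (by rw [h0, mul_zero]), Bd_div n h hB, ?_⟩
  rw [mul_assoc] at hFg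
  exact alpha _ _ one_sub_Z hFg

theorem pi_ne (f : T) (hf : f ≠ 0) (hB : Bd 0 f) : pi f ≠ 0 := by
  classical
  have hf' : f.coeff ≠ 0 := fun h => hf (MonoidAlgebra.coeff_eq_zero.1 h)
  obtain ⟨w, hw⟩ := Finsupp.support_nonempty_iff.2 hf'
  have hinj : Set.InjOn deg (f.coeff.support : Set M) := by
    intro u hu v hv huv
    have hu' := hB u (Finsupp.mem_support_iff.1 hu)
    have hv' := hB v (Finsupp.mem_support_iff.1 hv)
    have hu0 : u.p = [] := List.eq_nil_of_length_eq_zero (by omega)
    have hv0 : v.p = [] := List.eq_nil_of_length_eq_zero (by omega)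
    have h1 : ((u.m : ℤ) - (u.p.count false : ℤ)) = ((v.m : ℤ) - (v.p.count false : ℤ)) :=
      congrArg Multiplicative.toAdd huv
    rw [hu0, hv0] at h1
    have h2 : u.m = v.m := by simpa using h1
    exact M.ext (hu0.trans hv0.symm) h2
  intro h0
  have h1 : (pi f).coeff (deg w) = f.coeff w := by
    show (Finsupp.mapDomain deg f.coeff) (deg w) = f.coeff w
    exact Finsupp.mapDomain_apply' (f.coeff.support : Set M) f.coeff (le_refl _) hinj hw
  rw [h0] at h1
  exact (Finsupp.mem_support_iff.1 hw) h1.symm

theorem beta (n : ℕ) : ∀ f g : T, f ≠ 0 → Bd n f → f * g = 0 → pi g = 0 := by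
  induction n with
  | zero =>
    intro f g hf hB hfg
    have h1 : pi f * pi g = 0 := by rw [← map_mul, hfg, map_zero]
    exact (mul_eq_zero.1 h1).resolve_left (pi_ne f hf hB)
  | succ n ih =>
    intro f g hf hB hfg
    by_cases h1 : A * f = 0
    · obtain ⟨h, hh, hB', hg⟩ := beta_step n f g hf h1 hB hfg
      exact ih h g hh hB' hg
    by_cases h2 : A * (A * f) = 0
    · obtain ⟨h, hh, hB', hg⟩ := beta_step n (A * f) g h1 h2 (Bd_A _ _ hB)
        (by rw [mul_assoc, hfg, mul_zero])
      exact ih h g hh hB' hg
    · exact ih _ g h2 (Bd_AA n f hB) (by rw [mul_assoc, mul_assoc, hfg, mul_zero, mul_zero])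

theorem exists_Bd (f : T) : ∃ n, Bd n f := by
  refine ⟨f.coeff.support.sup (fun w => w.p.length), fun w hw => ?_⟩
  exact Finset.le_sup (f := fun w : M => w.p.length) (Finsupp.mem_support_iff.2 hw)

theorem beta' (f g : T) (hf : f ≠ 0) (hfg : f * g = 0) : pi g = 0 := by
  obtain ⟨n, hn⟩ := exists_Bd f
  exact beta n f g hf hn hfg

/-- coefficient at the identity -/
noncomputable def ep (f : T) : ℚ := f.coeff 1

theorem ep_add (f g : T) : ep (f + g) = ep f + ep g := rfl
theorem ep_zero : ep 0 = 0 := rfl
theorem ep_single (w : M) (r : ℚ) : ep (MonoidAlgebra.single w r) = if w = 1 then r else 0 := by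
  classical
  unfold ep
  rw [MonoidAlgebra.coeff_single, Finsupp.single_apply]

theorem ep_one : ep 1 = 1 := MonoidAlgebra.coeff_one_one

theorem ep_mul (f g : T) : ep (f * g) = ep f * ep g := by
  induction f using MonoidAlgebra.induction_linear with
  | zero => simp [ep_zero]
  | add x y hx hy => rw [add_mul, ep_add, ep_add, hx, hy, add_mul]
  | single w r =>
    induction g using MonoidAlgebra.induction_linear with
    | zero => simp [ep_zero]
    | add x y hx hy => rw [mul_add, ep_add, ep_add, hx, hy, mul_add]
    | single v s =>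
      rw [MonoidAlgebra.single_mul_single, ep_single, ep_single, ep_single]
      by_cases hw : w = 1
      · subst hw
        by_cases hv : v = 1
        · subst hv; simp
        · rw [one_mul, if_neg hv, if_neg hv, mul_zero]
      · rw [if_neg hw, zero_mul, if_neg]
        exact fun h => hw (mul_eq_one _ _ h).1

/-! ### The ring -/

@[ext] structure RR where
  t : T
  n : L

namespace RR

noncomputable instance : Add RR := ⟨fun x y => ⟨x.t + y.t, x.n + y.n⟩⟩
noncomputable instance : Mul RR := ⟨fun x y => ⟨x.t * y.t, ep x.t • y.n + x.n * pi y.t⟩⟩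
noncomputable instance : Neg RR := ⟨fun x => ⟨-x.t, -x.n⟩⟩
noncomputable instance : Zero RR := ⟨⟨0, 0⟩⟩
noncomputable instance : One RR := ⟨⟨1, 0⟩⟩

theorem add_t (x y : RR) : (x + y).t = x.t + y.t := rfl
theorem add_n (x y : RR) : (x + y).n = x.n + y.n := rfl
theorem mul_t (x y : RR) : (x * y).t = x.t * y.t := rfl
theorem mul_n (x y : RR) : (x * y).n = ep x.t • y.n + x.n * pi y.t := rfl
theorem neg_t (x : RR) : (-x).t = -x.t := rfl
theorem neg_n (x : RR) : (-x).n = -x.n := rfl
theorem zero_t : (0 : RR).t = 0 := rfl
theorem zero_n : (0 : RR).n = 0 := rfl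
theorem one_t : (1 : RR).t = 1 := rfl
theorem one_n : (1 : RR).n = 0 := rfl

noncomputable instance : Ring RR :=
  Ring.ofMinimalAxioms
    (fun x y z => RR.ext (add_assoc _ _ _) (add_assoc _ _ _))
    (fun x => RR.ext (zero_add _) (zero_add _))
    (fun x => RR.ext (neg_add_cancel _) (neg_add_cancel _))
    (fun x y z => by
      apply RR.ext
      · simp only [mul_t, mul_assoc]
      · simp only [mul_t, mul_n, ep_mul, smul_add, mul_smul, add_mul, map_mul, smul_mul_assoc,
          mul_assoc, add_assoc])
    (fun x => by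
      apply RR.ext
      · simp only [mul_t, one_t, one_mul]
      · simp only [mul_n, one_t, one_n, ep_one, one_smul, zero_mul, add_zero])
    (fun x => by
      apply RR.ext
      · simp only [mul_t, one_t, mul_one]
      · simp only [mul_n, one_t, one_n, smul_zero, map_one, mul_one, zero_add])
    (fun x y z => by
      apply RR.ext
      · simp only [mul_t, add_t, mul_add]
      · simp only [mul_n, add_t, add_n, smul_add, map_add, mul_add]
        abel)
    (fun x y z => by
      apply RR.ext
      · simp only [mul_t, add_t, add_mul]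
      · simp only [mul_n, add_t, add_n, ep_add, add_smul, add_mul]
        abel)

/-- rational scalars -/
noncomputable def c (l : ℚ) : RR := ⟨MonoidAlgebra.single 1 l, 0⟩

theorem ep_c (l : ℚ) : ep (c l).t = l := by
  show ep (MonoidAlgebra.single 1 l) = l
  rw [ep_single, if_pos rfl]

theorem single_one (l : ℚ) (x : L) : MonoidAlgebra.single 1 l * x = l • x := by
  induction x using MonoidAlgebra.induction_linear with
  | zero => simp
  | add x y hx hy => rw [mul_add, hx, hy, smul_add]
  | single m r => rw [MonoidAlgebra.single_mul_single, one_mul, MonoidAlgebra.smul_single]; rfl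

theorem pi_c (l : ℚ) (x : L) : x * pi (c l).t = l • x := by
  show x * pi (MonoidAlgebra.single 1 l) = l • x
  rw [pi_single, map_one, mul_comm, single_one]

theorem c_comm (x : RR) (l : ℚ) : Commute x (c l) := by
  apply RR.ext
  · rw [mul_t, mul_t]
    exact ((MonoidAlgebra.single_commute (fun m => Commute.one_left m)
      (fun r => Commute.all _ _) x.t).symm).eq
  · rw [mul_n, mul_n, ep_c, pi_c]
    show ep x.t • (0 : L) + l • x.n = l • x.n + (0 : L) * pi x.t
    simp

theorem mul_c_t (x : RR) (l : ℚ) (w : M) : (x * c l).t.coeff w = x.t.coeff w * l := by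
  rw [mul_t]
  exact MonoidAlgebra.coeff_mul_single_one _ _ _

theorem mul_c_n (x : RR) (l : ℚ) : (x * c l).n = l • x.n := by
  rw [mul_n, pi_c]
  show ep x.t • (0 : L) + l • x.n = _
  simp

theorem c_mul (l k : ℚ) : c l * c k = c (l * k) := by
  apply RR.ext
  · rw [mul_t]
    show MonoidAlgebra.single 1 l * MonoidAlgebra.single 1 k = MonoidAlgebra.single 1 (l * k)
    rw [MonoidAlgebra.single_mul_single, one_mul]
  · rw [mul_n, pi_c]
    show ep (c l).t • (0 : L) + k • (0 : L) = 0
    simp

theorem c_one : c 1 = 1 := rfl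

theorem c_pow (l : ℚ) (k : ℕ) : c l ^ k = c (l ^ k) := by
  induction k with
  | zero => rw [pow_zero, pow_zero, c_one]
  | succ k ih => rw [pow_succ, pow_succ, ih, c_mul]

/-- evaluation at a rational scalar -/
noncomputable def ev (l : ℚ) : RR[X] →+* RR :=
  Polynomial.eval₂RingHom' (RingHom.id RR) (c l) (fun x => c_comm x l)

/-- A functional commuting with scalars. -/
structure Fn where
  φ : RR →+ ℚ
  h : ∀ x l, φ (x * c l) = φ x * l

/-- the polynomial obtained by applying a functional to the coefficients -/
noncomputable def Fn.poly (f : Fn) (F : RR[X]) : ℚ[X] :=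
  ∑ i ∈ F.support, Polynomial.monomial i (f.φ (F.coeff i))

theorem Fn.poly_coeff (f : Fn) (F : RR[X]) (i : ℕ) : (f.poly F).coeff i = f.φ (F.coeff i) := by
  classical
  unfold Fn.poly
  rw [Polynomial.finsetSum_coeff]
  simp only [Polynomial.coeff_monomial]
  rw [Finset.sum_ite_eq']
  split_ifs with h
  · rfl
  · rw [Polynomial.notMem_support_iff] at h
    rw [h, map_zero]

theorem Fn.poly_eval (f : Fn) (F : RR[X]) (l : ℚ) : (f.poly F).eval l = f.φ (ev l F) := by
  unfold Fn.poly
  have : ev l F = ∑ i ∈ F.support, F.coeff i * c l ^ i := by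
    show Polynomial.eval₂ (RingHom.id RR) (c l) F = _
    rw [Polynomial.eval₂_eq_sum, Polynomial.sum_def]
    rfl
  rw [this, map_sum, Polynomial.eval_finsetSum]
  refine Finset.sum_congr rfl fun i _ => ?_
  rw [Polynomial.eval_monomial, c_pow, f.h]

theorem Fn.zero_of_inf (f : Fn) (F : RR[X]) (Λ : Set ℚ) (hΛ : Λ.Infinite)
    (h : ∀ l ∈ Λ, f.φ (ev l F) = 0) (i : ℕ) : f.φ (F.coeff i) = 0 := by
  have : f.poly F = 0 := by
    apply Polynomial.eq_zero_of_infinite_isRoot
    refine hΛ.mono fun l hl => ?_
    show (f.poly F).eval l = 0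
    rw [f.poly_eval, h l hl]
  rw [← f.poly_coeff, this, Polynomial.coeff_zero]

/-- coefficient functional on the first component -/
noncomputable def fnT (w : M) : Fn where
  φ := { toFun := fun x => x.t.coeff w, map_zero' := rfl, map_add' := fun _ _ => rfl }
  h := fun x l => mul_c_t x l w

noncomputable def fnN (j : Multiplicative ℤ) : Fn where
  φ := { toFun := fun x => x.n.coeff j, map_zero' := rfl, map_add' := fun _ _ => rfl }
  h := fun x l => by
    show (x * c l).n.coeff j = x.n.coeff j * l
    rw [mul_c_n, MonoidAlgebra.coeff_smul_apply, smul_eq_mul, mul_comm]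

noncomputable def fnP (j : Multiplicative ℤ) : Fn where
  φ := { toFun := fun x => (pi x.t).coeff j,
         map_zero' := by
          show (pi (0 : T)).coeff j = 0
          rw [map_zero]; rfl
         map_add' := fun x y => by
          show (pi (x.t + y.t)).coeff j = (pi x.t).coeff j + (pi y.t).coeff j
          rw [map_add]; rfl }
  h := fun x l => by
    show (pi (x * c l).t).coeff j = (pi x.t).coeff j * l
    rw [mul_t, map_mul, pi_c, MonoidAlgebra.coeff_smul_apply, smul_eq_mul, mul_comm]

theorem finite_zeros (F : RR[X]) (hF : F ≠ 0) : {l | ev l F = 0}.Finite := by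
  by_contra hinf
  have hinf : {l | ev l F = 0}.Infinite := hinf
  apply hF
  ext i : 1
  rw [Polynomial.coeff_zero]
  apply RR.ext
  · apply MonoidAlgebra.coeff_injective
    ext w
    exact (fnT w).zero_of_inf F _ hinf (fun l hl => by
      have : ev l F = 0 := hl
      rw [this, map_zero]) i
  · apply MonoidAlgebra.coeff_injective
    ext w
    exact (fnN w).zero_of_inf F _ hinf (fun l hl => by
      have : ev l F = 0 := hl
      rw [this, map_zero]) i

theorem gamma (r s : RR) (hr : r ≠ 0) (hs : s ≠ 0) (hrs : r * s = 0) :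
    ep r.t = 0 ∧ pi s.t = 0 := by
  have h1 : r.t * s.t = 0 := congrArg RR.t hrs
  have h2 : ep r.t • s.n + r.n * pi s.t = 0 := congrArg RR.n hrs
  have he : ep r.t = 0 := by
    by_contra hne
    have h3 : s.t = 0 := alpha _ _ hne h1
    rw [h3, map_zero, mul_zero, add_zero, smul_eq_zero] at h2
    exact hs (RR.ext h3 (h2.resolve_left hne))
  refine ⟨he, ?_⟩
  rw [he, zero_smul, zero_add, mul_eq_zero] at h2
  by_cases h3 : r.t = 0
  · have h4 : r.n ≠ 0 := fun h => hr (RR.ext h3 h)
    exact h2.resolve_left h4
  · exact beta' _ _ h3 h1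

theorem key (F G : RR[X]) (hF : F ≠ 0) (hG : G ≠ 0) (hFG : F * G = 0) :
    ∃ Λ : Set ℚ, Λ.Infinite ∧ ∀ l ∈ Λ, ep (ev l F).t = 0 ∧ pi (ev l G).t = 0 := by
  refine ⟨({l | ev l F = 0} ∪ {l | ev l G = 0})ᶜ, ?_, ?_⟩
  · exact ((finite_zeros F hF).union (finite_zeros G hG)).infinite_compl
  · intro l hl
    have h1 : ev l F ≠ 0 := fun h => hl (Or.inl h)
    have h2 : ev l G ≠ 0 := fun h => hl (Or.inr h)
    apply gamma _ _ h1 h2
    rw [← map_mul, hFG, map_zero]

/-- the annihilator -/
noncomputable def s0 : RR := ⟨0, 1⟩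

theorem s0_ne : s0 ≠ 0 := by
  intro h
  have : (1 : L) = 0 := congrArg RR.n h
  exact one_ne_zero this

theorem right_mccoy : RightMcCoy RR := by
  intro F G hF hG hFG
  obtain ⟨Λ, hΛ, h⟩ := key F G hF hG hFG
  refine ⟨s0, s0_ne, ?_⟩
  ext i : 1
  rw [Polynomial.coeff_mul_C, Polynomial.coeff_zero]
  have h1 : ep (F.coeff i).t = 0 := (fnT 1).zero_of_inf F Λ hΛ (fun l hl => (h l hl).1) i
  apply RR.ext
  · rw [mul_t]
    exact mul_zero _
  · rw [mul_n, h1, zero_smul, zero_add]
    show (F.coeff i).n * pi 0 = 0
    rw [map_zero, mul_zero]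

theorem left_mccoy : LeftMcCoy RR := by
  intro F G hF hG hFG
  obtain ⟨Λ, hΛ, h⟩ := key F G hF hG hFG
  refine ⟨s0, s0_ne, ?_⟩
  ext i : 1
  rw [Polynomial.coeff_C_mul, Polynomial.coeff_zero]
  have h1 : pi (G.coeff i).t = 0 := by
    apply MonoidAlgebra.coeff_injective
    ext j
    refine (fnP j).zero_of_inf G Λ hΛ (fun l hl => ?_) i
    show (pi (ev l G).t).coeff j = 0
    rw [(h l hl).2]
    rfl
  apply RR.ext
  · rw [mul_t]
    exact zero_mul _
  · rw [mul_n, h1, mul_zero, add_zero]
    show ep 0 • (G.coeff i).n = 0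
    rw [ep_zero, zero_smul]

end RR

open RR

/-- There is a ring with identity, both right McCoy and left McCoy, with an element `a` such
that `a = a^2 y` for some `y` but `a` is different from `z a^2` for every `z`. -/
theorem result : ∃ (S : Type) (_ : Ring S), RightMcCoy S ∧ LeftMcCoy S ∧
    ∃ a y : S, a = a ^ 2 * y ∧ ∀ z : S, a ≠ z * a ^ 2 := by
  refine ⟨RR, inferInstance, right_mccoy, left_mccoy, ⟨MonoidAlgebra.single ma 1, 0⟩,
    ⟨MonoidAlgebra.single my 1, 0⟩, ?_, ?_⟩
  · rw [pow_two]
    apply RR.ext
    · simp only [mul_t, MonoidAlgebra.single_mul_single, mul_one]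
      congr 1
    · simp only [mul_n, smul_zero, zero_mul, add_zero]
  · intro z hz
    have h1 := congrArg RR.t hz
    rw [pow_two] at h1
    simp only [mul_t, MonoidAlgebra.single_mul_single, mul_one] at h1
    have h2 := congrArg (fun f : T => f.coeff ma) h1
    simp only [MonoidAlgebra.coeff_single, Finsupp.single_eq_same] at h2
    have h3 : (z.t * MonoidAlgebra.single (ma * ma) 1).coeff ma = 0 := by
      apply MonoidAlgebra.coeff_mul_single_of_forall_mul_ne
      intro d hd
      have h4 := congrArg M.m hd
      rw [_root_.Pool.Agent.Results.MP_4d240a_al.McCoyDischinger.mul_m] at h4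
      have h5 : (ma * ma).m = 2 := rfl
      have h6 : ma.m = 1 := rfl
      omega
    rw [h3] at h2
    exact one_ne_zero h2

end Pool.Agent.Results.MP_4d240a_al.McCoyDischinger
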